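import Mathlib
import Pool.Agent.H7.VTest
import Pool.Agent.H8.VStep

/-!
Relativised polynomial hierarchies of every height all of whose levels are unambiguous.
-/

set_option autoImplicit false

namespace Pool.Agent.H7old.UnambiguousPH

open Pool.Agent.H9 Pool.Agent.H8v
open Pool.Agent.H8u (AUSigmaP)
open Pool.Agent.H7s (SPP)

/-- **Main theorem.** For every oracle `B` and every height `h` (a natural number or infinity)
there is an oracle `A` above `B` relative to which the polynomial hierarchy has exactly `h` levels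
(for finite `h` the top level is `PSPACE`), every level of the hierarchy is accepted by
unambiguous alternating machines of the same level, `PSPACE = UAP`, and `PSPACE` is contained in
the counting class `SPP`. -/
theorem result (B : Oracle) (h : ℕ∞) : ∃ A : Oracle,
    (∀ k : ℕ, SigmaP B k ⊆ SigmaP A k) ∧
    (∀ k : ℕ, (k : ℕ∞) < h → SigmaP A k ⊂ SigmaP A (k + 1)) ∧
    (∀ k : ℕ, h ≤ (k : ℕ∞) → SigmaP A k = AP A) ∧
    (∀ k : ℕ, SigmaP A k = AUSigmaP A k) ∧ AP A = UAP A ∧ AP A ⊆ SPP A := by
  apply main_of_step h B
  rintro g hg ⟨k, p, q, T⟩ hk D n₀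
  simp only at hk
  have h0 : h ≠ 0 := by
    rintro rfl
    exact absurd hk (by simp)
  refine step_all_levels g (fun c => (hg c.1 c.2.1.length).1 h0) B k ?_ p q T D n₀
  intro c hc
  rcases (hg c.1 c.2.1.length).2 with h1 | h1
  · exact h1
  · exfalso
    have h2 : ((dp g c : ℕ) : ℕ∞) ≤ (k : ℕ∞) := by exact_mod_cast hc
    exact absurd (h1.trans h2) (not_le.2 hk)

end Pool.Agent.H7old.UnambiguousPH
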